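import Pool.Agent.V11201.SH.C
import Pool.Agent.R468.RC.I
import Pool.Agent.R468.RC.L

set_option autoImplicit false

/-!
# Pairs of neighbours which do not merge: residue classes, with a rate
-/

namespace Pool.Agent.U339.LV

open Finset Filter Topology
open Pool.Agent.H499R2.ND (Tn)
open Pool.Agent.H499R2.LT (odn)
open Pool.Agent.H499R2.HL (H)

/-- the trajectories of `n` and `n + j` merge within `t` steps (synchronously) -/
def GP (j t n : ℕ) : Prop := ∃ t' ≤ t, Tn^[t'] (n + j) = Tn^[t'] n ∧ odn t' (n + j) = odn t' n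

theorem GP_class (j t r u : ℕ) : GP j t (r + 2 ^ t * u) ↔ GP j t r := by
  constructor
  · rintro ⟨t', ht, g1, g2⟩
    refine ⟨t', ht, ?_⟩
    have e : r + 2 ^ t * u + j = (r + j) + 2 ^ t * u := by ring
    rw [e] at g1 g2
    obtain ⟨k1, k2⟩ := Pool.Agent.R468.RC.it_class' ht r u
    obtain ⟨k3, k4⟩ := Pool.Agent.R468.RC.it_class' ht (r + j) u
    rw [k2, k4] at g2
    rw [k1, k3, g2] at g1
    exact ⟨by omega, g2⟩
  · rintro ⟨t', ht, g1, g2⟩
    refine ⟨t', ht, ?_⟩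
    have e : r + 2 ^ t * u + j = (r + j) + 2 ^ t * u := by ring
    rw [e]
    obtain ⟨k1, k2⟩ := Pool.Agent.R468.RC.it_class' ht r u
    obtain ⟨k3, k4⟩ := Pool.Agent.R468.RC.it_class' ht (r + j) u
    rw [k1, k2, k3, k4, g1, g2]
    exact ⟨rfl, rfl⟩

theorem GP_mod (j t n : ℕ) : GP j t n ↔ GP j t (n % 2 ^ t) := by
  conv_lhs => rw [← Nat.mod_add_div n (2 ^ t)]
  exact GP_class j t _ _

open Classical in
/-- the bad residues -/
noncomputable def BP (j t : ℕ) : Finset ℕ := (Finset.range (2 ^ t)).filter fun r => ¬ GP j t r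

theorem mem_BP {j t n : ℕ} : n % 2 ^ t ∈ BP j t ↔ ¬ GP j t n := by
  classical
  unfold BP
  rw [Finset.mem_filter, Finset.mem_range, ← GP_mod]
  exact ⟨fun g => g.2, fun g => ⟨Nat.mod_lt _ (by positivity), g⟩⟩

theorem BP_sub (j t : ℕ) : BP j t ⊆ Finset.range (2 ^ t) := by
  classical
  exact Finset.filter_subset _ _

/-- a nonmerging pair is in a bad class -/
theorem GP_H {j t n : ℕ} (hn : 2 ^ t ≤ n) (hG : GP j t n) (k : ℕ) : H k (n + j) ↔ H k n := by
  obtain ⟨t', ht, g1, g2⟩ := hG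
  have h2 : 2 ^ t' ≤ n := (Nat.pow_le_pow_right (by norm_num) ht).trans hn
  have := Pool.Agent.V11201.SH.Same_of h2 (by omega) g1 g2
  exact (this k).1

theorem odn_odn_cast (t n : ℕ) : (Pool.Agent.V11201.SH.od 1 t (n : ℤ)) = odn t n := Pool.Agent.V11201.SH.od_odn t n

theorem GP_of_Mg {j t n : ℕ} (h : Pool.Agent.V11201.SH.Mg 1 (4 ^ t) (n : ℤ) ((n : ℤ) + 1 * (j : ℤ))) : GP j t n := by
  obtain ⟨t', ht, h1, h2⟩ := h
  have e : (n : ℤ) + 1 * (j : ℤ) = ((n + j : ℕ) : ℤ) := by push_cast; ring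
  rw [e] at h1 h2
  rw [Pool.Agent.H499R2.CO.Tn_iter_cast, Pool.Agent.H499R2.CO.Tn_iter_cast] at h1
  rw [Pool.Agent.V11201.SH.od_odn, Pool.Agent.V11201.SH.od_odn] at h2
  exact ⟨t', (Nat.pow_le_pow_iff_right (by norm_num)).1 ht, by exact_mod_cast h1.symm, h2.symm⟩

open Classical in
/-- the number of the bad residues -/
theorem BP_count (j t : ℕ) : #(BP j t) * 2 ^ t ≤
    #{n ∈ Icc 1 (4 ^ t) | ¬ Pool.Agent.V11201.SH.Mg 1 (4 ^ t) ((n : ℕ) : ℤ) ((n : ℤ) + 1 * (j : ℤ))} + 1 := by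
  set S := {n ∈ Icc 1 (4 ^ t) | ¬ Pool.Agent.V11201.SH.Mg 1 (4 ^ t) ((n : ℕ) : ℤ) ((n : ℤ) + 1 * (j : ℤ))} with hS
  set U : Finset ℕ := ((BP j t) ×ˢ Finset.range (2 ^ t)).image (fun q => q.1 + 2 ^ t * q.2) with hU
  have hUc : U.card = (BP j t).card * 2 ^ t := by
    rw [hU, Finset.card_image_of_injOn, Finset.card_product, Finset.card_range]
    rintro ⟨a, b⟩ hab ⟨a', b'⟩ hab' he
    rw [Finset.mem_coe, Finset.mem_product] at hab hab'
    have ha := Finset.mem_range.1 (BP_sub j t hab.1)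
    have ha' := Finset.mem_range.1 (BP_sub j t hab'.1)
    simp only at he ha ha'
    have e1 : (a + 2 ^ t * b) % 2 ^ t = a := by rw [Nat.add_mul_mod_self_left]; exact Nat.mod_eq_of_lt ha
    have e2 : (a' + 2 ^ t * b') % 2 ^ t = a' := by rw [Nat.add_mul_mod_self_left]; exact Nat.mod_eq_of_lt ha'
    have e3 : a = a' := by rw [← e1, ← e2, he]
    subst e3
    have e4 : 2 ^ t * b = 2 ^ t * b' := by omega
    have e5 : b = b' := Nat.eq_of_mul_eq_mul_left (by positivity) e4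
    rw [e5]
  rw [← hUc]
  have hsub : U ⊆ insert 0 S := by
    intro n hn
    rw [hU, Finset.mem_image] at hn
    obtain ⟨⟨a, b⟩, hab, rfl⟩ := hn
    rw [Finset.mem_product, Finset.mem_range] at hab
    have ha := Finset.mem_range.1 (BP_sub j t hab.1)
    have hb := hab.2
    simp only at ha hb ⊢
    have h4e : (4 : ℕ) ^ t = 2 ^ t * 2 ^ t := by rw [← mul_pow]; norm_num
    rw [mem_insert]
    by_cases h0 : a + 2 ^ t * b = 0
    · exact Or.inl h0
    right
    rw [hS, mem_filter, Finset.mem_Icc]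
    refine ⟨⟨by omega, ?_⟩, fun hM => ?_⟩
    · rw [h4e]
      calc a + 2 ^ t * b ≤ 2 ^ t * (b + 1) := by rw [mul_add, mul_one]; omega
        _ ≤ 2 ^ t * 2 ^ t := Nat.mul_le_mul_left _ hb
    · have h1 := GP_of_Mg hM
      rw [GP_class] at h1
      have := mem_BP (j := j) (t := t) (n := a)
      rw [Nat.mod_eq_of_lt ha] at this
      exact this.1 hab.1 h1
  exact (card_le_card hsub).trans (card_insert_le _ _)

theorem sqrt_four (y : ℝ) : √ (4 * y) = 2 * √ y := by
  rw [Real.sqrt_mul (by norm_num : (0 : ℝ) ≤ 4)]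
  congr 1
  rw [show (4 : ℝ) = 2 ^ 2 by norm_num]
  exact Real.sqrt_sq (by norm_num)

/-- the bad residues: the rate -/
theorem BP_rate : ∃ C : ℝ, 0 < C ∧ ∀ t : ℕ, 2 ≤ t → ∀ j : ℕ,
    (#(BP j t) : ℝ) / 2 ^ t ≤ C * √ ((1 + Real.log (1 + (j : ℝ))) * (Real.log t / t)) := by
  classical
  obtain ⟨C, hC, hM⟩ := Pool.Agent.V11201.SH.Mg_pairs
  refine ⟨2 * C + 2, by positivity, fun t ht j => ?_⟩
  have ht2 : (2 : ℝ) ≤ t := by exact_mod_cast ht
  have h16 : 16 ≤ 4 ^ t := by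
    calc 16 = 4 ^ 2 := by norm_num
      _ ≤ 4 ^ t := Nat.pow_le_pow_right (by norm_num) ht
  have h1 := hM (4 ^ t) h16 1 (by norm_num) (j : ℤ)
  have h2 := BP_count j t
  have hl2 := Real.log_two_gt_d9
  have hl2' := Real.log_two_lt_d9
  have hlt : Real.log 2 ≤ Real.log t := Real.log_le_log (by norm_num) ht2
  have e4 : Real.log ((4 ^ t : ℕ) : ℝ) = t * (2 * Real.log 2) := by
    push_cast
    rw [Real.log_pow, show (4 : ℝ) = 2 ^ 2 by norm_num, Real.log_pow]
    push_cast; ring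
  have eabs : |(((j : ℤ) : ℤ) : ℝ)| = (j : ℝ) := by
    rw [abs_of_nonneg (by positivity)]; norm_cast
  rw [eabs, e4] at h1
  have hj : 0 ≤ Real.log (1 + (j : ℝ)) := Real.log_nonneg (by
    have : (0 : ℝ) ≤ j := by positivity
    linarith)
  have hll : Real.log (t * (2 * Real.log 2)) ≤ 2 * Real.log t := by
    rw [Real.log_mul (by positivity) (by positivity)]
    have : Real.log (2 * Real.log 2) ≤ Real.log 2 := by
      apply Real.log_le_log (by positivity)
      linarith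
    linarith
  have hq : Real.log (t * (2 * Real.log 2)) / (t * (2 * Real.log 2)) ≤ 2 * (Real.log t / t) := by
    rw [div_le_iff₀ (by positivity)]
    have h3 : 2 * (Real.log t / t) * (t * (2 * Real.log 2)) = 2 * Real.log t * (2 * Real.log 2) := by
      field_simp
    rw [h3]
    refine hll.trans ?_
    have : (1 : ℝ) ≤ 2 * Real.log 2 := by linarith
    nlinarith
  set X := (1 + Real.log (1 + (j : ℝ))) * (Real.log t / t) with hX
  have hlt0 : 0 < Real.log t := by linarith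
  have hX0 : 0 < X := by positivity
  have h5 : √ ((1 + Real.log (1 + (j : ℝ))) * (Real.log (t * (2 * Real.log 2)) / (t * (2 * Real.log 2)))) ≤
      2 * √ X := by
    rw [← sqrt_four X]
    apply Real.sqrt_le_sqrt
    have := mul_le_mul_of_nonneg_left hq (by linarith : 0 ≤ 1 + Real.log (1 + (j : ℝ)))
    calc _ ≤ (1 + Real.log (1 + (j : ℝ))) * (2 * (Real.log t / t)) := this
      _ = 2 * X := by rw [hX]; ring
      _ ≤ 4 * X := by linarith
  have h6 : (#(BP j t) : ℝ) * 2 ^ t ≤ 2 * C * √ X * 4 ^ t + 1 := by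
    have h7 : (#(BP j t) : ℝ) * 2 ^ t ≤
      (#{n ∈ Icc 1 (4 ^ t) | ¬ Pool.Agent.V11201.SH.Mg 1 (4 ^ t) ((n : ℕ) : ℤ) ((n : ℤ) + 1 * (j : ℤ))} : ℝ) + 1 := by
      exact_mod_cast h2
    refine h7.trans (add_le_add (h1.trans ?_) le_rfl)
    push_cast
    have := mul_le_mul_of_nonneg_left h5 hC.le
    have h8 := mul_le_mul_of_nonneg_right this (by positivity : (0 : ℝ) ≤ 4 ^ t)
    linarith
  -- `1 ≤ 2 √X 4^t`
  have h9 : 1 ≤ 2 * √ X * 4 ^ t := by
    have h10 : (1 : ℝ) / 4 ^ t ≤ √ X := by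
      apply Real.le_sqrt_of_sq_le
      have h11 : (t : ℝ) ≤ 4 ^ t := by
        have : t < 4 ^ t := Nat.lt_pow_self (by norm_num)
        exact_mod_cast this.le
      have h12 : (1 : ℝ) ≤ 4 ^ t := one_le_pow₀ (by norm_num)
      have h13 : 1 / (2 * (t : ℝ)) ≤ X := by
        rw [hX, div_le_iff₀ (by positivity)]
        have : (1 + Real.log (1 + (j : ℝ))) * (Real.log t / t) * (2 * t) =
            (1 + Real.log (1 + (j : ℝ))) * (2 * Real.log t) := by field_simp
        rw [this]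
        nlinarith
      refine le_trans ?_ h13
      rw [div_pow, one_pow, div_le_div_iff₀ (by positivity) (by positivity)]
      nlinarith
    rw [div_le_iff₀ (by positivity)] at h10
    have : 0 ≤ √ X * 4 ^ t := by positivity
    linarith
  rw [div_le_iff₀ (by positivity)]
  have h14 : (#(BP j t) : ℝ) * 2 ^ t ≤ ((2 * C + 2) * √ X * 2 ^ t) * 2 ^ t := by
    have : (4 : ℝ) ^ t = 2 ^ t * 2 ^ t := by rw [← mul_pow]; norm_num
    rw [this] at h6 h9
    linarith
  exact le_of_mul_le_mul_right h14 (by positivity)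

end Pool.Agent.U339.LV
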