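import Pool.Agent.U339.LV.A
import Pool.Agent.U339.CE.Seq

set_option autoImplicit false

/-!
# Sums over the levels of the total stopping time
-/

namespace Pool.Agent.U339.LV

open Finset Filter Topology
open Pool.Agent.H499R2.ND (Tn)
open Pool.Agent.H499R2.LT (odn)
open Pool.Agent.H499R2.HL (H)
open Pool.Agent.R468.RC (cN)
open Pool.Agent.U339.CE (badF win shift_bound)

open Classical in
/-- the integers `1 ≤ n ≤ N` with total stopping time `k` -/
noncomputable def Lv (k N : ℕ) : Finset ℕ := {n ∈ Icc 1 N | H k n}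

open Classical in
theorem cN_card (k N q r : ℕ) : cN k N q r = #{n ∈ Icc 1 N | H k n ∧ n ≡ r [MOD q]} := by
  unfold cN
  rw [← Set.ncard_coe_finset]
  congr 1
  ext n
  rw [Finset.mem_coe, mem_filter, Finset.mem_Icc, Set.mem_ofPred_eq]
  tauto

open Classical in
/-- the elements of the level whose translates are not in the level -/
noncomputable def fw (k N j : ℕ) : Finset ℕ := {n ∈ Icc 1 N | H k n ∧ ¬ H k (n + j)}

open Classical in
theorem fw_le (k N j t : ℕ) : #(fw k N j) ≤ 2 ^ t + ∑ r ∈ BP j t, cN k N (2 ^ t) r := by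
  have hsub : fw k N j ⊆ range (2 ^ t) ∪ (BP j t).biUnion fun r => {n ∈ Icc 1 N | H k n ∧ n ≡ r [MOD 2 ^ t]} := by
    intro n hn
    unfold fw at hn
    rw [mem_filter] at hn
    obtain ⟨h1, h2, h3⟩ := hn
    rw [mem_union, mem_range]
    by_cases h4 : n < 2 ^ t
    · exact Or.inl h4
    right
    rw [mem_biUnion]
    refine ⟨n % 2 ^ t, ?_, ?_⟩
    · rw [mem_BP]
      intro hG
      exact h3 ((GP_H (by omega) hG k).2 h2)
    · rw [mem_filter]
      exact ⟨h1, h2, (Nat.mod_modEq n _).symm⟩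
  refine (card_le_card hsub).trans ((card_union_le _ _).trans ?_)
  rw [card_range]
  refine Nat.add_le_add_left (card_biUnion_le.trans (Finset.sum_le_sum fun r _ => ?_)) _
  rw [cN_card]

open Classical in
/-- both directions -/
theorem badF_le (k N j : ℕ) : #(badF {fun n => H k n} j N) ≤ 2 * #(fw k N j) + j := by
  set A := {n ∈ Icc 1 N | H k n} with hA
  set B := {n ∈ Icc 1 N | H k (n + j)} with hB
  have h1 : badF {fun n => H k n} j N ⊆ fw k N j ∪ (B \ A) := by
    intro n hn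
    unfold badF at hn
    rw [mem_filter] at hn
    obtain ⟨h1, P, hP, h2⟩ := hn
    rw [Set.mem_singleton_iff] at hP
    subst hP
    rw [mem_union, Finset.mem_sdiff]
    unfold fw
    rw [mem_filter, hA, hB, mem_filter, mem_filter]
    by_cases h3 : H k n
    · left
      exact ⟨h1, h3, fun h4 => h2 ⟨fun _ => h3, fun _ => h4⟩⟩
    · right
      refine ⟨⟨h1, ?_⟩, fun h4 => h3 h4.2⟩
      by_contra h5
      exact h2 ⟨fun h6 => (h5 h6).elim, fun h6 => (h3 h6).elim⟩
  have h2 : #B ≤ #A + j := by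
    -- shift
    have : B.image (fun n => n + j) ⊆ A ∪ Icc (N + 1) (N + j) := by
      intro m hm
      rw [mem_image] at hm
      obtain ⟨n, hn, rfl⟩ := hm
      rw [hB, mem_filter, Finset.mem_Icc] at hn
      rw [mem_union, hA, mem_filter, Finset.mem_Icc, Finset.mem_Icc]
      by_cases h : n + j ≤ N
      · exact Or.inl ⟨⟨by omega, h⟩, hn.2⟩
      · right; omega
    have h3 := (card_le_card this).trans (card_union_le _ _)
    rw [card_image_of_injective _ (add_left_injective j), Nat.card_Icc] at h3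
    omega
  have h3 : A \ B = fw k N j := by
    ext n
    unfold fw
    rw [Finset.mem_sdiff, hA, hB, mem_filter, mem_filter, mem_filter]
    tauto
  have h4 : #(B \ A) ≤ #(fw k N j) + j := by
    have e1 := card_sdiff_add_card_inter B A
    have e2 := card_sdiff_add_card_inter A B
    rw [h3, inter_comm] at e2
    omega
  have h5 := (card_le_card h1).trans (card_union_le _ _)
  omega

variable {E : Type*} [NormedAddCommGroup E] [NormedSpace ℝ E]

open Classical in
/-- the basic inequality -/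
theorem basic (k N : ℕ) {v : ℕ → E} {c : E} {η : ℝ} {h : ℕ} (hh : 1 ≤ h) (hv : ∀ n, ‖v n‖ ≤ 1)
    (hw : ∀ n, ‖win v h n - c‖ ≤ η) {D : ℝ} (hD : ∀ j < h, (#(fw k N j) : ℝ) ≤ D) :
    ‖∑ n ∈ Lv k N, (v n - c)‖ ≤ η * #(Lv k N) + (3 * h + 2 * D) := by
  have hh0 : (0 : ℝ) < h := by exact_mod_cast hh
  unfold Lv
  rw [Finset.sum_filter]
  have e1 : ∑ n ∈ Icc 1 N, (if H k n then v n - c else 0) =
      (∑ n ∈ Icc 1 N, (if H k n then v n else 0) - ∑ n ∈ Icc 1 N, (if H k n then win v h n else 0)) +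
      ∑ n ∈ Icc 1 N, (if H k n then win v h n - c else 0) := by
    rw [← Finset.sum_sub_distrib, ← Finset.sum_add_distrib]
    apply Finset.sum_congr rfl
    intro n _
    by_cases g : H k n
    · simp only [if_pos g]; abel
    · simp only [if_neg g]; abel
  have b3 : ‖∑ n ∈ Icc 1 N, (if H k n then win v h n - c else 0)‖ ≤ η * #{n ∈ Icc 1 N | H k n} := by
    rw [← Finset.sum_filter]
    refine (norm_sum_le _ _).trans ((Finset.sum_le_sum fun n _ => hw n).trans (le_of_eq ?_))
    rw [Finset.sum_const, nsmul_eq_mul, mul_comm]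
  have b2 : ‖∑ n ∈ Icc 1 N, (if H k n then v n else 0) - ∑ n ∈ Icc 1 N, (if H k n then win v h n else 0)‖ ≤
      3 * h + 2 * D := by
    have e2 : ∑ n ∈ Icc 1 N, (if H k n then v n else 0) - ∑ n ∈ Icc 1 N, (if H k n then win v h n else 0) =
        (h : ℝ)⁻¹ • ∑ j ∈ range h, (∑ n ∈ Icc 1 N, (if H k n then v n else 0) -
          ∑ n ∈ Icc 1 N, (if H k n then v (n + j) else 0)) := by
      rw [Finset.sum_sub_distrib, Finset.sum_const, card_range, smul_sub, ← Nat.cast_smul_eq_nsmul ℝ,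
        smul_smul, inv_mul_cancel₀ hh0.ne', one_smul, Finset.sum_comm, Finset.smul_sum]
      congr 1
      apply Finset.sum_congr rfl
      intro n _
      by_cases g : H k n
      · simp only [if_pos g]; rfl
      · simp only [if_neg g]; simp
    rw [e2, norm_smul, norm_inv, Real.norm_of_nonneg hh0.le]
    have h5 : ‖∑ j ∈ range h, (∑ n ∈ Icc 1 N, (if H k n then v n else 0) -
          ∑ n ∈ Icc 1 N, (if H k n then v (n + j) else 0))‖ ≤ ∑ j ∈ range h, (3 * (h : ℝ) + 2 * D) := by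
      refine (norm_sum_le _ _).trans (Finset.sum_le_sum fun j hj => ?_)
      have hjh := Finset.mem_range.1 hj
      have g1 := shift_bound (F := {fun n => H k n}) (P := fun n => H k n) rfl v (M := 1) hv N j
      refine g1.trans ?_
      have g2 : (#(badF {fun n => H k n} j N) : ℝ) ≤ 2 * #(fw k N j) + j := by exact_mod_cast badF_le k N j
      have g3 := hD j hjh
      have g4 : (j : ℝ) ≤ h := by exact_mod_cast hjh.le
      linarith
    rw [Finset.sum_const, card_range, nsmul_eq_mul] at h5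
    calc (h : ℝ)⁻¹ * _ ≤ (h : ℝ)⁻¹ * (h * (3 * (h : ℝ) + 2 * D)) :=
          mul_le_mul_of_nonneg_left h5 (by positivity)
      _ = 3 * (h : ℝ) + 2 * D := by rw [← mul_assoc, inv_mul_cancel₀ hh0.ne', one_mul]
  rw [e1]
  refine (norm_add_le _ _).trans ?_
  linarith

/-- the trivial bound -/
theorem triv (k N : ℕ) {v : ℕ → E} {c : E} {η : ℝ} {h : ℕ} (hh : 1 ≤ h) (hv : ∀ n, ‖v n‖ ≤ 1)
    (hw : ∀ n, ‖win v h n - c‖ ≤ η) :
    ‖∑ n ∈ Lv k N, (v n - c)‖ ≤ η * #(Lv k N) + 2 * #(Lv k N) := by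
  have hh0 : (0 : ℝ) < h := by exact_mod_cast hh
  have h1 : ‖win v h 0‖ ≤ 1 := by
    unfold win
    rw [norm_smul, norm_inv, Real.norm_of_nonneg hh0.le]
    have : ‖∑ j ∈ range h, v (0 + j)‖ ≤ h := by
      refine (norm_sum_le _ _).trans ((Finset.sum_le_sum fun j _ => hv (0 + j)).trans (le_of_eq ?_))
      simp
    calc (h : ℝ)⁻¹ * _ ≤ (h : ℝ)⁻¹ * h := mul_le_mul_of_nonneg_left this (by positivity)
      _ = 1 := inv_mul_cancel₀ hh0.ne'
  have h2 : ‖c‖ ≤ 1 + η := by
    have e : c = win v h 0 - (win v h 0 - c) := by abel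
    rw [e]
    exact (norm_sub_le _ _).trans (add_le_add h1 (hw 0))
  have h3 : ∑ n ∈ Lv k N, ‖v n - c‖ ≤ ∑ n ∈ Lv k N, (η + 2) :=
    Finset.sum_le_sum fun n _ => (norm_sub_le _ _).trans (by linarith [hv n])
  refine (norm_sum_le _ _).trans (h3.trans (le_of_eq ?_))
  rw [Finset.sum_const, nsmul_eq_mul]; ring

theorem Lv_le (k N : ℕ) : #(Lv k N) ≤ N := by
  classical
  unfold Lv
  exact (card_filter_le _ _).trans (by simp)

theorem Lv_small {k N : ℕ} : #(Lv k N) ≤ 2 ^ k := by
  classical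
  have : Lv k N ⊆ Icc 1 (2 ^ k) := by
    intro n hn
    unfold Lv at hn
    rw [mem_filter, Finset.mem_Icc] at hn
    rw [Finset.mem_Icc]
    exact ⟨hn.1.1, Pool.Agent.H499R2.HL.pow_le_of_hit hn.2.1⟩
  exact (card_le_card this).trans (by simp)

theorem Lv_cN (k N : ℕ) : #(Lv k N) = cN k N (2 ^ 0) 0 := by
  classical
  rw [cN_card]
  unfold Lv
  congr 1
  ext n
  simp [Nat.modEq_one]

/-- uniform upper bound -/
theorem Lv_up : ∃ A : ℝ, 0 < A ∧ ∀ N : ℕ, 2 ≤ N → ∀ k : ℕ, (#(Lv k N) : ℝ) ≤ A * (N / √ (Real.log N)) := by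
  obtain ⟨A, X1, hA, hX1, h⟩ := Pool.Agent.R468.RC.class_up
  refine ⟨A + √ (Real.log X1), by positivity, fun N hN k => ?_⟩
  have hN2 : (2 : ℝ) ≤ N := by exact_mod_cast hN
  have hL : 0 < Real.log N := Real.log_pos (by linarith)
  have hs : 0 < √ (Real.log N) := Real.sqrt_pos.2 hL
  rcases le_or_gt X1 N with h1 | h1
  · have h2 := h N h1 0 (by rw [Nat.cast_zero]; positivity) 0 (by simp) k (by omega)
    rw [← Lv_cN, pow_zero, one_mul] at h2
    refine h2.trans ?_
    rw [mul_div_assoc]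
    apply mul_le_mul_of_nonneg_right _ (by positivity)
    linarith [Real.sqrt_nonneg (Real.log X1)]
  · have h2 : (#(Lv k N) : ℝ) ≤ N := by exact_mod_cast Lv_le k N
    refine h2.trans ?_
    have h3 : √ (Real.log N) ≤ √ (Real.log X1) := by
      apply Real.sqrt_le_sqrt
      apply Real.log_le_log (by linarith)
      exact_mod_cast h1.le
    rw [mul_div_assoc', le_div_iff₀ hs]
    nlinarith

end Pool.Agent.U339.LV
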