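import Pool.Agent.U339.LV.B

set_option autoImplicit false

/-!
# The main inequality, for all levels
-/

namespace Pool.Agent.U339.LV

open Finset Filter Topology
open Pool.Agent.H499R2.ND (Tn)
open Pool.Agent.H499R2.LT (odn)
open Pool.Agent.H499R2.HL (H)
open Pool.Agent.R468.RC (cN)
open Pool.Agent.U339.CE (badF win shift_bound)

/-- the error term -/
noncomputable def Er (h N : ℕ) : ℝ :=
  √ ((1 + Real.log h) * Real.log (Real.log N)) * (N / Real.log N ^ (3 / 4 : ℝ))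

theorem loglog_one {N : ℕ} (hN : 16 ≤ N) : 1 ≤ Real.log (Real.log N) ∧ 2.7 ≤ Real.log N := by
  have h16 : (16 : ℝ) ≤ N := by exact_mod_cast hN
  have h1 : Real.log 16 ≤ Real.log N := Real.log_le_log (by norm_num) h16
  have h2 : Real.log 16 = 4 * Real.log 2 := by
    rw [show (16 : ℝ) = 2 ^ 4 by norm_num, Real.log_pow]; push_cast; ring
  have := Real.log_two_gt_d9
  have h3 : 2.7725 ≤ Real.log N := by linarith
  refine ⟨?_, by linarith⟩
  rw [Real.le_log_iff_exp_le (by linarith)]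
  have := Real.exp_one_lt_d9
  linarith

/-- small powers -/
theorem small_pow {N : ℕ} (hN2 : Real.exp 100 ≤ N) {x : ℝ} (hx : x ≤ √ (Real.log N) / 2) :
    Real.exp x ≤ N / Real.log N ^ (3 / 4 : ℝ) := by
  have hN0 : (0 : ℝ) < N := (Real.exp_pos _).trans_le hN2
  set L := Real.log N with hL
  have hL100 : 100 ≤ L := (Real.le_log_iff_exp_le hN0).2 hN2
  set q := √ L with hq
  have hqq : q * q = L := Real.mul_self_sqrt (by linarith)
  have hq10 : 10 ≤ q := by rw [hq]; apply Real.le_sqrt_of_sq_le; linarith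
  have g2 : Real.exp (q / 2) * L ≤ N := by
    have e1 : (N : ℝ) = Real.exp L := (Real.exp_log hN0).symm
    have e2 : L ≤ Real.exp (L / 2) := by
      have g3 := Real.quadratic_le_exp_of_nonneg (x := L / 2) (by linarith)
      nlinarith
    have e3 : q / 2 ≤ L / 2 := by nlinarith
    calc Real.exp (q / 2) * L ≤ Real.exp (L / 2) * Real.exp (L / 2) :=
          mul_le_mul (Real.exp_le_exp.2 e3) e2 (by linarith) (Real.exp_pos _).le
      _ = Real.exp L := by rw [← Real.exp_add]; congr 1; ring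
      _ = N := e1.symm
  have g3 : L ^ (3 / 4 : ℝ) ≤ L := by
    calc L ^ (3 / 4 : ℝ) ≤ L ^ (1 : ℝ) := Real.rpow_le_rpow_of_exponent_le (by linarith) (by norm_num)
      _ = L := Real.rpow_one L
  have g4 : 0 < L ^ (3 / 4 : ℝ) := Real.rpow_pos_of_pos (by linarith) _
  rw [le_div_iff₀ g4]
  exact (mul_le_mul (Real.exp_le_exp.2 hx) g3 g4.le (Real.exp_pos _).le).trans g2

theorem two_pow_exp {k : ℕ} {q : ℝ} (hk : (k : ℝ) ≤ q / 2) : (2 : ℝ) ^ k ≤ Real.exp (q / 2) := by
  have e1 : (2 : ℝ) ^ k = Real.exp (k * Real.log 2) := by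
    rw [← Real.log_pow, Real.exp_log (by positivity)]
  rw [e1]
  apply Real.exp_le_exp.2
  have := Real.log_two_lt_d9
  have : (0 : ℝ) ≤ k := Nat.cast_nonneg k
  nlinarith

/-- the bound for the forward set -/
theorem fw_up : ∃ (C : ℝ) (N0 : ℕ), 0 < C ∧ 16 ≤ N0 ∧ Real.exp 100 ≤ N0 ∧ ∀ N : ℕ, N0 ≤ N → ∀ k h : ℕ, 1 ≤ h →
    (⌊√ (Real.log N) / 2⌋₊ ≤ k) → ∀ j < h, (#(fw k N j) : ℝ) ≤ C * Er h N := by
  obtain ⟨A, X1, hA, hX1, hcl⟩ := Pool.Agent.R468.RC.class_up
  obtain ⟨C, hC, hB⟩ := BP_rate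
  refine ⟨1 + 2 * C * A, max X1 (max ⌈Real.exp 100⌉₊ 16), by positivity,
    (le_max_right _ _).trans (le_max_right _ _), ?_, fun N hN k h hh hk j hj => ?_⟩
  · refine (Nat.le_ceil _).trans ?_
    exact_mod_cast (le_max_left ⌈Real.exp 100⌉₊ 16).trans (le_max_right X1 _)
  have hN1 : X1 ≤ N := (le_max_left _ _).trans hN
  have hN2 : Real.exp 100 ≤ N := by
    have : ⌈Real.exp 100⌉₊ ≤ N := ((le_max_left _ _).trans (le_max_right _ _)).trans hN
    exact (Nat.le_ceil _).trans (by exact_mod_cast this)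
  have hN3 : 16 ≤ N := ((le_max_right _ _).trans (le_max_right _ _)).trans hN
  have hN0 : (0 : ℝ) < N := (Real.exp_pos _).trans_le hN2
  set L := Real.log N with hL
  have hL100 : 100 ≤ L := (Real.le_log_iff_exp_le hN0).2 hN2
  obtain ⟨hℓ, _⟩ := loglog_one hN3
  rw [← hL] at hℓ
  set ℓ := Real.log L with hℓd
  set q := √ L with hq
  have hq10 : 10 ≤ q := by rw [hq]; apply Real.le_sqrt_of_sq_le; linarith
  have hqq : q * q = L := Real.mul_self_sqrt (by linarith)
  set t := ⌊q / 2⌋₊ with ht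
  have ht1 : (t : ℝ) ≤ q / 2 := Nat.floor_le (by positivity)
  have ht2 : q / 2 < t + 1 := Nat.lt_floor_add_one _
  have ht4 : q / 4 ≤ t := by linarith
  have ht2' : 2 ≤ t := by
    have : (1 : ℝ) < t := by linarith
    exact_mod_cast this
  have h1 := fw_le k N j t
  have h2 : (#(fw k N j) : ℝ) ≤ 2 ^ t + ∑ r ∈ BP j t, (cN k N (2 ^ t) r : ℝ) := by exact_mod_cast h1
  have h3 : ∑ r ∈ BP j t, (cN k N (2 ^ t) r : ℝ) ≤ #(BP j t) * (A * N / (2 ^ t * q)) := by
    refine (Finset.sum_le_sum fun r hr => hcl N hN1 t ht1 r (Finset.mem_range.1 (BP_sub j t hr)) k hk).trans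
      (le_of_eq ?_)
    rw [Finset.sum_const, nsmul_eq_mul]
  have h4 := hB t ht2' j
  -- sizes
  have hlogt : Real.log t / t ≤ 2 * ℓ / q := by
    have g1 : Real.log t ≤ ℓ / 2 := by
      have g2 : (t : ℝ) ≤ q := by linarith
      have g3 : Real.log t ≤ Real.log q := Real.log_le_log (by linarith) g2
      have g4 : Real.log q = ℓ / 2 := by rw [hq, Real.log_sqrt (by linarith)]
      linarith
    rw [div_le_div_iff₀ (by linarith) (by linarith)]
    nlinarith
  have hlogj : Real.log (1 + (j : ℝ)) ≤ Real.log h := by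
    apply Real.log_le_log (by positivity)
    have : j + 1 ≤ h := hj
    have : ((j + 1 : ℕ) : ℝ) ≤ h := by exact_mod_cast this
    push_cast at this
    linarith
  have hlogj0 : 0 ≤ Real.log (1 + (j : ℝ)) := Real.log_nonneg (by
    have : (0 : ℝ) ≤ j := by positivity
    linarith)
  have hlogh : 0 ≤ Real.log h := hlogj0.trans hlogj
  have hq34 : L ^ (3 / 4 : ℝ) = q * √ q := by
    rw [hq, Real.sqrt_eq_rpow, Real.sqrt_eq_rpow, ← Real.rpow_mul (by linarith), ← Real.rpow_add (by linarith)]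
    norm_num
  have hsq : 0 < √ q := Real.sqrt_pos.2 (by linarith)
  have h5 : √ ((1 + Real.log (1 + (j : ℝ))) * (Real.log t / t)) ≤ 2 * (√ ((1 + Real.log h) * ℓ) / √ q) := by
    have g1 : (1 + Real.log (1 + (j : ℝ))) * (Real.log t / t) ≤ (1 + Real.log h) * (2 * ℓ / q) := by
      have g0 : 0 ≤ Real.log t / t := div_nonneg (Real.log_nonneg (by linarith)) (by linarith)
      exact mul_le_mul (by linarith) hlogt g0 (by linarith)
    have g2 : (2 : ℝ) * (√ ((1 + Real.log h) * ℓ) / √ q) = √ (4 * ((1 + Real.log h) * ℓ / q)) := by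
      rw [sqrt_four, Real.sqrt_div (by positivity)]
    rw [g2]
    apply Real.sqrt_le_sqrt
    refine g1.trans ?_
    have g3 : (1 + Real.log h) * (2 * ℓ / q) = 2 * ((1 + Real.log h) * ℓ / q) := by ring
    rw [g3]
    have : 0 ≤ (1 + Real.log h) * ℓ / q := by positivity
    linarith
  have h6 : (#(BP j t) : ℝ) * (A * N / (2 ^ t * q)) ≤ 2 * C * A * Er h N := by
    have g1 : (#(BP j t) : ℝ) * (A * N / (2 ^ t * q)) = ((#(BP j t) : ℝ) / 2 ^ t) * (A * N / q) := by
      field_simp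
    rw [g1]
    have g2 : (#(BP j t) : ℝ) / 2 ^ t ≤ C * (2 * (√ ((1 + Real.log h) * ℓ) / √ q)) :=
      h4.trans (mul_le_mul_of_nonneg_left h5 hC.le)
    calc (#(BP j t) : ℝ) / 2 ^ t * (A * N / q) ≤ C * (2 * (√ ((1 + Real.log h) * ℓ) / √ q)) * (A * N / q) :=
          mul_le_mul_of_nonneg_right g2 (by positivity)
      _ = 2 * C * A * Er h N := by
          unfold Er
          rw [← hL, ← hℓd, hq34]
          field_simp
  have h7 : (2 : ℝ) ^ t ≤ Er h N := by
    have g5 : 1 ≤ √ ((1 + Real.log h) * ℓ) := by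
      apply Real.le_sqrt_of_sq_le
      nlinarith
    have g6 := (two_pow_exp ht1).trans (small_pow hN2 (x := q / 2) le_rfl)
    rw [← hL] at g6
    unfold Er
    rw [← hL, ← hℓd]
    calc (2 : ℝ) ^ t ≤ N / L ^ (3 / 4 : ℝ) := g6
      _ = 1 * (N / L ^ (3 / 4 : ℝ)) := (one_mul _).symm
      _ ≤ √ ((1 + Real.log h) * ℓ) * (N / L ^ (3 / 4 : ℝ)) := mul_le_mul_of_nonneg_right g5 (by positivity)
  linarith

/-- **The main inequality.** -/
theorem master : ∃ C : ℝ, 0 < C ∧ ∀ N : ℕ, 16 ≤ N → ∀ k : ℕ,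
    ∀ (E : Type) [NormedAddCommGroup E] [NormedSpace ℝ E] (v : ℕ → E) (c : E) (η : ℝ) (h : ℕ), 1 ≤ h →
      (∀ n, ‖v n‖ ≤ 1) → (∀ n, ‖win v h n - c‖ ≤ η) →
      ‖∑ n ∈ Lv k N, (v n - c)‖ ≤ η * #(Lv k N) + C * Er h N := by
  obtain ⟨C, N0, hC, hN0, hN100, hfw⟩ := fw_up
  obtain ⟨A, hA, hup⟩ := Lv_up
  refine ⟨2 * (C + A) + 3 + 2 * Real.log N0 ^ (3 / 4 : ℝ), by
    have : 0 < Real.log (N0 : ℝ) := by
      have := (loglog_one hN0).2
      linarith
    positivity, fun N hN k E _ _ v c η h hh hv hw => ?_⟩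
  have hN16 : (16 : ℝ) ≤ N := by exact_mod_cast hN
  have hNpos : (0 : ℝ) < N := by linarith
  obtain ⟨hℓ, hL27⟩ := loglog_one hN
  set L := Real.log N with hL
  set ℓ := Real.log L with hℓd
  have hL0 : 0 < L := by linarith
  have hh1 : (1 : ℝ) ≤ h := by exact_mod_cast hh
  have hlogh : 0 ≤ Real.log h := Real.log_nonneg hh1
  have h34 : 0 < L ^ (3 / 4 : ℝ) := Real.rpow_pos_of_pos hL0 _
  have g5 : 1 ≤ √ ((1 + Real.log h) * ℓ) := by
    apply Real.le_sqrt_of_sq_le
    nlinarith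
  have hEr : N / L ^ (3 / 4 : ℝ) ≤ Er h N := by
    unfold Er
    rw [← hL, ← hℓd]
    calc N / L ^ (3 / 4 : ℝ) = 1 * (N / L ^ (3 / 4 : ℝ)) := (one_mul _).symm
      _ ≤ _ := mul_le_mul_of_nonneg_right g5 (by positivity)
  have hEr0 : 0 < Er h N := lt_of_lt_of_le (by positivity) hEr
  have hLN0 : 0 < Real.log (N0 : ℝ) := by
    have := (loglog_one hN0).2
    linarith
  have hLN34 : 0 < Real.log (N0 : ℝ) ^ (3 / 4 : ℝ) := Real.rpow_pos_of_pos hLN0 _
  have htriv := triv k N hh hv hw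
  rcases lt_or_ge N N0 with hlt | hge
  · -- small `N`
    have h1 : (#(Lv k N) : ℝ) ≤ N := by exact_mod_cast Lv_le k N
    have h2 : L ^ (3 / 4 : ℝ) ≤ Real.log (N0 : ℝ) ^ (3 / 4 : ℝ) := by
      apply Real.rpow_le_rpow hL0.le _ (by norm_num)
      apply Real.log_le_log hNpos
      exact_mod_cast hlt.le
    have h3 : (N : ℝ) ≤ Real.log (N0 : ℝ) ^ (3 / 4 : ℝ) * Er h N := by
      calc (N : ℝ) = L ^ (3 / 4 : ℝ) * (N / L ^ (3 / 4 : ℝ)) := by field_simp
        _ ≤ Real.log (N0 : ℝ) ^ (3 / 4 : ℝ) * Er h N := mul_le_mul h2 hEr (by positivity) hLN34.le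
    have h4 : 0 ≤ (2 * (C + A) + 3) * Er h N := by positivity
    have e : (2 * (C + A) + 3 + 2 * Real.log (N0 : ℝ) ^ (3 / 4 : ℝ)) * Er h N =
      (2 * (C + A) + 3) * Er h N + 2 * (Real.log (N0 : ℝ) ^ (3 / 4 : ℝ) * Er h N) := by ring
    rw [e]
    linarith
  have hN2 : 2 ≤ N := by omega
  have hNe : Real.exp 100 ≤ N := hN100.trans (by exact_mod_cast hge)
  have hgap : 0 ≤ 2 * Real.log (N0 : ℝ) ^ (3 / 4 : ℝ) * Er h N := by positivity
  have e : (2 * (C + A) + 3 + 2 * Real.log (N0 : ℝ) ^ (3 / 4 : ℝ)) * Er h N =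
      2 * (C * Er h N) + 2 * (A * Er h N) + 3 * Er h N + 2 * Real.log (N0 : ℝ) ^ (3 / 4 : ℝ) * Er h N := by ring
  rw [e]
  have hCE : 0 ≤ C * Er h N := by positivity
  have hAE : 0 ≤ A * Er h N := by positivity
  set q := √ L with hq
  have hqq : q * q = L := Real.mul_self_sqrt hL0.le
  have hq0 : 0 < q := Real.sqrt_pos.2 hL0
  have hq34 : L ^ (3 / 4 : ℝ) = q * √ q := by
    rw [hq, Real.sqrt_eq_rpow, Real.sqrt_eq_rpow, ← Real.rpow_mul (by linarith), ← Real.rpow_add (by linarith)]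
    norm_num
  have hq1 : 1 ≤ q := by
    rw [hq]; apply Real.le_sqrt_of_sq_le; linarith
  have hsq1 : 1 ≤ √ q := Real.le_sqrt_of_sq_le (by linarith)
  have hL100 : 100 ≤ L := (Real.le_log_iff_exp_le hNpos).2 hNe
  have hq10 : 10 ≤ q := by rw [hq]; apply Real.le_sqrt_of_sq_le; linarith
  rcases lt_or_ge (√ L) (Real.log h) with hbig | hsmall
  · -- large `h`
    have h1 := hup N hN2 k
    rw [← hL, ← hq] at h1
    have h2 : N / q ≤ Er h N := by
      unfold Er
      rw [← hL, ← hℓd, hq34]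
      have h3 : √ q ≤ √ ((1 + Real.log h) * ℓ) := by
        apply Real.sqrt_le_sqrt
        rw [← hq] at hbig
        nlinarith
      calc N / q = √ q * (N / (q * √ q)) := by field_simp
        _ ≤ _ := mul_le_mul_of_nonneg_right h3 (by positivity)
    have h3 : A * (N / q) ≤ A * Er h N := mul_le_mul_of_nonneg_left h2 hA.le
    linarith
  · by_cases hk : ⌊√ (Real.log N) / 2⌋₊ ≤ k
    · have h1 := basic k N hh hv hw (D := C * Er h N) (fun j hj => hfw N hge k h hh hk j hj)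
      have h2 : (h : ℝ) ≤ Er h N := by
        refine le_trans ?_ hEr
        rw [le_div_iff₀ h34]
        have e1 : (N : ℝ) = Real.exp L := (Real.exp_log hNpos).symm
        have e2 : (h : ℝ) ≤ Real.exp q := by
          rw [← Real.log_le_iff_le_exp (by linarith)]
          exact hsmall
        have e3 : L ^ (3 / 4 : ℝ) ≤ q * q := by
          rw [hq34]
          have : √ q ≤ q := by
            rw [Real.sqrt_le_left (by linarith)]
            nlinarith
          nlinarith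
        have e4 : q ^ 2 ≤ Real.exp (q ^ 2 - q) := by
          have g1 := Real.quadratic_le_exp_of_nonneg (x := q ^ 2 / 2) (by positivity)
          have g2 : Real.exp (q ^ 2 / 2) ≤ Real.exp (q ^ 2 - q) := Real.exp_le_exp.2 (by nlinarith)
          nlinarith
        rw [e1]
        calc (h : ℝ) * L ^ (3 / 4 : ℝ) ≤ Real.exp q * Real.exp (q ^ 2 - q) := by
              apply mul_le_mul e2 (e3.trans (by nlinarith [e4])) h34.le (Real.exp_pos _).le
          _ = Real.exp L := by rw [← Real.exp_add, ← hqq]; congr 1; ring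
      linarith
    · have h1 : (#(Lv k N) : ℝ) ≤ 2 ^ k := by exact_mod_cast Lv_small
      have h2 : (2 : ℝ) ^ k ≤ Er h N := by
        refine le_trans ?_ hEr
        have h3 : (k : ℝ) ≤ q / 2 := by
          push Not at hk
          have : k ≤ ⌊q / 2⌋₊ := hk.le
          exact (by exact_mod_cast this : (k : ℝ) ≤ ⌊q / 2⌋₊).trans (Nat.floor_le (by positivity))
        exact (two_pow_exp h3).trans (small_pow hNe (x := q / 2) le_rfl)
      linarith

end Pool.Agent.U339.LV
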