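import Pool.Agent.U339.LV.C
import Mathlib.Analysis.InnerProductSpace.MeanErgodic

set_option autoImplicit false

/-!
# Consequences: the bulk, bounded partial sums, digits, the mean ergodic theorem
-/

namespace Pool.Agent.U339.LV

open Finset Filter Topology
open Pool.Agent.H499R2.ND (Tn)
open Pool.Agent.H499R2.LT (odn)
open Pool.Agent.H499R2.HL (H)
open Pool.Agent.R468.RC (cN)
open Pool.Agent.U339.CE (badF win shift_bound)

/-- the lower bound in the bulk -/
theorem Lv_low (K : ℝ) : ∃ (c : ℝ) (N0 : ℕ), 0 < c ∧ 16 ≤ N0 ∧ ∀ N : ℕ, N0 ≤ N → ∀ k : ℕ,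
    |(k : ℝ) - 2 / Real.log (4 / 3) * Real.log N| ≤ K * √ (Real.log N) →
    c * (N / √ (Real.log N)) ≤ #(Lv k N) := by
  classical
  obtain ⟨δ, Ψ, h0, h1, h2, h3, h4, h5, h6, h7, h8⟩ := Pool.Agent.R468.RC.main_classes
  have hl3 : 0 < Real.log 3 := Real.log_pos (by norm_num)
  have hl43 : 0 < Real.log (4 / 3) := Real.log_pos (by norm_num)
  set ε := δ * (Real.log 3 / 4) with hε
  have hε0 : 0 < ε := by positivity
  obtain ⟨X₀, hX⟩ := h8 1 0 0 le_rfl K ε hε0
  set σ2 := 2 * Real.log 3 ^ 2 / Real.log (4 / 3) ^ 3 with hσ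
  have hσ0 : 0 < σ2 := by positivity
  set a := Real.exp (-(K ^ 2 / (2 * σ2))) with ha
  have ha0 : 0 < a := Real.exp_pos _
  set b := √ (2 * Real.pi * σ2) with hb
  have hb0 : 0 < b := Real.sqrt_pos.2 (by have := Real.pi_pos; positivity)
  refine ⟨ε * (a / b), max ⌈X₀⌉₊ 16, by positivity, le_max_right _ _, fun N hN k hk => ?_⟩
  have hN16 : 16 ≤ N := (le_max_right _ _).trans hN
  have hN16r : (16 : ℝ) ≤ N := by exact_mod_cast hN16
  have hNX : X₀ ≤ N := (Nat.le_ceil X₀).trans (by exact_mod_cast (le_max_left _ _).trans hN)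
  obtain ⟨_, hL27⟩ := loglog_one hN16
  set L := Real.log N with hL
  have hL0 : 0 < L := by linarith
  have g1 := hX N hNX k hk
  have g2 : (cN k N 1 0 : ℝ) = ({n : ℕ | 1 ≤ n ∧ (n : ℝ) ≤ (N : ℝ) ∧ n ≡ 0 [MOD 1] ∧
      ∀ i ≤ 0, H k (n + i)}.ncard : ℝ) := by
    unfold cN
    congr 2
    ext n
    rw [Set.mem_ofPred_eq, Set.mem_ofPred_eq, Nat.cast_le]
    simp only [Nat.modEq_one, and_true, true_and, Nat.le_zero, forall_eq, add_zero]
  have g3 : (#(Lv k N) : ℝ) = cN k N 1 0 := by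
    rw [Lv_cN, pow_zero]
  set g := Real.exp (-(((k : ℝ) - 2 / Real.log (4 / 3) * L) ^ 2 / (2 * (σ2 * L)))) / √ (2 * Real.pi * (σ2 * L)) with hg
  have hg0 : 0 < g := by
    rw [hg]
    have := Real.pi_pos
    positivity
  have hglow : a / b * (1 / √ L) ≤ g := by
    rw [hg]
    have e1 : √ (2 * Real.pi * (σ2 * L)) = b * √ L := by
      rw [hb, ← Real.sqrt_mul (by have := Real.pi_pos; positivity)]
      congr 1; ring
    have e2 : a ≤ Real.exp (-(((k : ℝ) - 2 / Real.log (4 / 3) * L) ^ 2 / (2 * (σ2 * L)))) := by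
      rw [ha]
      apply Real.exp_le_exp.2
      apply neg_le_neg
      have e3 : ((k : ℝ) - 2 / Real.log (4 / 3) * L) ^ 2 ≤ K ^ 2 * L := by
        have e4 : |(k : ℝ) - 2 / Real.log (4 / 3) * L| ^ 2 ≤ (K * √ L) ^ 2 :=
          pow_le_pow_left₀ (abs_nonneg _) hk 2
        rw [sq_abs, mul_pow, Real.sq_sqrt hL0.le] at e4
        exact e4
      rw [div_le_div_iff₀ (by positivity) (by positivity)]
      nlinarith
    rw [e1, div_mul_div_comm, mul_one]
    exact div_le_div_of_nonneg_right e2 (by positivity)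
  have hNg : 0 < (N : ℝ) * g := by positivity
  have g5 : Real.logb 3 ((N : ℝ) / 2 ^ k) = Real.logb 3 ((N : ℝ) / 2 ^ k) := rfl
  have g6 : ε ≤ (#(Lv k N) : ℝ) / (N * g) := by
    rw [g3, g2]
    have g7 := (h6 (Real.logb 3 ((N : ℝ) / 2 ^ k))).1
    have g8 := (abs_le.1 g1).1
    rw [Nat.cast_one] at g8
    have e : δ * (Real.log 3 / 2) = 2 * ε := by rw [hε]; ring
    rw [e] at g7
    rw [one_div, inv_one, one_mul] at g8
    linarith
  rw [le_div_iff₀ hNg] at g6
  calc ε * (a / b) * (N / √ L) = ε * (N * (a / b * (1 / √ L))) := by ring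
    _ ≤ ε * (N * g) := by
        apply mul_le_mul_of_nonneg_left _ hε0.le
        exact mul_le_mul_of_nonneg_left hglow (by positivity)
    _ ≤ _ := g6

/-- the error term is small relative to the size of the levels -/
theorem Er_small (h : ℕ) {ε : ℝ} (hε : 0 < ε) : ∃ N0 : ℕ, 16 ≤ N0 ∧ ∀ N : ℕ, N0 ≤ N →
    Er h N ≤ ε * (N / √ (Real.log N)) := by
  have h1 : Tendsto (fun y : ℝ => Real.log y / y ^ (1 / 2 : ℝ)) atTop (𝓝 0) := by
    have := isLittleO_log_rpow_atTop (r := 1 / 2) (by norm_num)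
    exact this.tendsto_div_nhds_zero
  have h2 : Tendsto (fun N : ℕ => Real.log N) atTop atTop :=
    Real.tendsto_log_atTop.comp tendsto_natCast_atTop_atTop
  have h3 := ((h1.comp h2).const_mul (1 + |Real.log h|))
  rw [mul_zero] at h3
  obtain ⟨N0, hN0⟩ := eventually_atTop.1 (h3.eventually (gt_mem_nhds (show (0 : ℝ) < ε ^ 2 by positivity)))
  refine ⟨max N0 16, le_max_right _ _, fun N hN => ?_⟩
  have hN16 : 16 ≤ N := (le_max_right _ _).trans hN
  obtain ⟨hℓ, hL27⟩ := loglog_one hN16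
  have h4 := hN0 N ((le_max_left _ _).trans hN)
  simp only [Function.comp] at h4
  have hNpos : (0 : ℝ) < N := by
    have : 0 < N := by omega
    exact_mod_cast this
  unfold Er
  set L := Real.log N with hL
  have hL0 : 0 < L := by linarith
  have e1 : L ^ (3 / 4 : ℝ) = √ L * √ (L ^ (1 / 2 : ℝ)) := by
    rw [Real.sqrt_eq_rpow, Real.sqrt_eq_rpow, ← Real.rpow_mul hL0.le, ← Real.rpow_add hL0]
    norm_num
  have hs : 0 < √ L := Real.sqrt_pos.2 hL0
  have hs2 : 0 < L ^ (1 / 2 : ℝ) := Real.rpow_pos_of_pos hL0 _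
  have h5 : √ ((1 + Real.log h) * Real.log L) / √ (L ^ (1 / 2 : ℝ)) ≤ ε := by
    rw [← Real.sqrt_div' _ hs2.le, Real.sqrt_le_left hε.le]
    refine le_trans ?_ h4.le
    rw [← mul_div_assoc]
    apply div_le_div_of_nonneg_right _ hs2.le
    apply mul_le_mul_of_nonneg_right _ (by linarith)
    linarith [le_abs_self (Real.log h)]
  calc √ ((1 + Real.log h) * Real.log L) * (N / L ^ (3 / 4 : ℝ)) =
        √ ((1 + Real.log h) * Real.log L) / √ (L ^ (1 / 2 : ℝ)) * (N / √ L) := by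
        rw [e1]; field_simp
    _ ≤ ε * (N / √ L) := mul_le_mul_of_nonneg_right h5 (by positivity)

variable {E : Type} [NormedAddCommGroup E] [NormedSpace ℝ E]

theorem win_smul (w : ℕ → E) (a : ℝ) (h n : ℕ) : win (fun m => a • w m) h n = a • win w h n := by
  unfold win
  rw [← Finset.smul_sum, smul_comm]

/-- Families of bounded sequences with uniformly convergent window means. -/
theorem bulk {ι : Type} (v : ι → ℕ → E) (c : ι → E) {M : ℝ} (hM : ∀ i n, ‖v i n‖ ≤ M)
    (hw : ∀ ε : ℝ, 0 < ε → ∃ h : ℕ, 1 ≤ h ∧ ∀ i n, ‖win (v i) h n - c i‖ ≤ ε) (K : ℝ) {ε : ℝ} (hε : 0 < ε) :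
    ∃ N0 : ℕ, ∀ N : ℕ, N0 ≤ N → ∀ k : ℕ,
      |(k : ℝ) - 2 / Real.log (4 / 3) * Real.log N| ≤ K * √ (Real.log N) → 0 < #(Lv k N) ∧
      ∀ i, ‖(#(Lv k N) : ℝ)⁻¹ • ∑ n ∈ Lv k N, v i n - c i‖ ≤ ε := by
  obtain ⟨C, hC, hmain⟩ := master
  obtain ⟨b, N1, hb, hN1, hlow⟩ := Lv_low K
  set M' := |M| + 1 with hM'
  have hM'0 : 0 < M' := by positivity
  obtain ⟨h, hh, hwin⟩ := hw (ε / 2) (by positivity)
  obtain ⟨N2, hN2, hEr⟩ := Er_small h (ε := ε * b / (2 * C * M')) (by positivity)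
  refine ⟨max N1 N2, fun N hN k hk => ?_⟩
  have g1 : N1 ≤ N := (le_max_left _ _).trans hN
  have g2 : N2 ≤ N := (le_max_right _ _).trans hN
  have h3 := hlow N g1 k hk
  have h4 := hEr N g2
  have hN16 : 16 ≤ N := hN1.trans g1
  obtain ⟨_, hL27⟩ := loglog_one hN16
  have hNpos : (0 : ℝ) < N := by
    have : 0 < N := by omega
    exact_mod_cast this
  have hsz : 0 < b * (N / √ (Real.log N)) := by
    have : 0 < √ (Real.log N) := Real.sqrt_pos.2 (by linarith)
    positivity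
  have hcard : (0 : ℝ) < #(Lv k N) := lt_of_lt_of_le hsz h3
  refine ⟨by exact_mod_cast hcard, fun i => ?_⟩
  have h5 := hmain N hN16 k E (fun n => M'⁻¹ • v i n) (M'⁻¹ • c i) (M'⁻¹ * (ε / 2)) h hh (fun n => by
      rw [norm_smul, norm_inv, Real.norm_of_nonneg hM'0.le, inv_mul_le_iff₀ hM'0, mul_one]
      exact (hM i n).trans ((le_abs_self M).trans (by rw [hM']; linarith)))
    (fun n => by
      rw [win_smul, ← smul_sub, norm_smul, norm_inv, Real.norm_of_nonneg hM'0.le]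
      exact mul_le_mul_of_nonneg_left (hwin i n) (by positivity))
  have h6 : ‖∑ n ∈ Lv k N, (v i n - c i)‖ ≤ ε / 2 * #(Lv k N) + M' * (C * Er h N) := by
    have e : ∑ n ∈ Lv k N, (v i n - c i) = M' • ∑ n ∈ Lv k N, (M'⁻¹ • v i n - M'⁻¹ • c i) := by
      rw [Finset.smul_sum]
      apply Finset.sum_congr rfl
      intro n _
      rw [← smul_sub, smul_smul, mul_inv_cancel₀ hM'0.ne', one_smul]
    rw [e, norm_smul, Real.norm_of_nonneg hM'0.le]
    calc M' * _ ≤ M' * (M'⁻¹ * (ε / 2) * #(Lv k N) + C * Er h N) := mul_le_mul_of_nonneg_left h5 hM'0.le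
      _ = ε / 2 * #(Lv k N) + M' * (C * Er h N) := by
          rw [mul_add]
          congr 1
          rw [← mul_assoc, ← mul_assoc, mul_inv_cancel₀ hM'0.ne', one_mul]
  have h7 : M' * (C * Er h N) ≤ ε / 2 * #(Lv k N) := by
    calc M' * (C * Er h N) ≤ M' * (C * (ε * b / (2 * C * M') * (N / √ (Real.log N)))) := by
          apply mul_le_mul_of_nonneg_left _ hM'0.le
          exact mul_le_mul_of_nonneg_left h4 hC.le
      _ = ε / 2 * (b * (N / √ (Real.log N))) := by field_simp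
      _ ≤ ε / 2 * #(Lv k N) := mul_le_mul_of_nonneg_left h3 (by positivity)
  have e3 : (#(Lv k N) : ℝ)⁻¹ • ∑ n ∈ Lv k N, v i n - c i = (#(Lv k N) : ℝ)⁻¹ • ∑ n ∈ Lv k N, (v i n - c i) := by
    rw [Finset.sum_sub_distrib, Finset.sum_const, smul_sub, ← Nat.cast_smul_eq_nsmul ℝ,
      smul_smul, inv_mul_cancel₀ hcard.ne', one_smul]
  rw [e3, norm_smul, norm_inv, Real.norm_of_nonneg hcard.le, inv_mul_le_iff₀ hcard]
  linarith

/-- block sums from partial sums -/
theorem win_partial {v : ℕ → E} {B : ℝ} (hB : ∀ n, ‖∑ i ∈ range n, v i‖ ≤ B) (h n : ℕ) :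
    ‖win v h n‖ ≤ 2 * B / h := by
  unfold win
  rw [norm_smul, norm_inv, Real.norm_of_nonneg (Nat.cast_nonneg h)]
  have e : ∑ j ∈ range h, v (n + j) = ∑ i ∈ range (n + h), v i - ∑ i ∈ range n, v i := by
    rw [Finset.sum_range_add]
    abel
  rw [e, div_eq_inv_mul]
  apply mul_le_mul_of_nonneg_left _ (by positivity)
  refine (norm_sub_le _ _).trans ?_
  have := hB (n + h)
  have := hB n
  linarith

/-- Sequences with bounded partial sums. -/
theorem partial_rate : ∃ C : ℝ, 0 < C ∧ ∀ N : ℕ, 16 ≤ N → ∀ k : ℕ,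
    ∀ (E : Type) [NormedAddCommGroup E] [NormedSpace ℝ E] (v : ℕ → E) (B : ℝ),
      (∀ n, ‖v n‖ ≤ 1) → (∀ n, ‖∑ i ∈ range n, v i‖ ≤ B) →
      ‖∑ n ∈ Lv k N, v n‖ ≤ C * (√ (Real.log (2 + B)) * Real.log (Real.log N) * (N / Real.log N ^ (3 / 4 : ℝ))) := by
  obtain ⟨C, hC, hmain⟩ := master
  obtain ⟨A, hA, hup⟩ := Lv_up
  refine ⟨2 * A * 2 + 4 * C, by positivity, fun N hN k E _ _ v B hv hB => ?_⟩
  have hB0 : 0 ≤ B := (norm_nonneg _).trans (hB 0)
  obtain ⟨hℓ, hL27⟩ := loglog_one hN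
  have hN2 : 2 ≤ N := by omega
  have hNpos : (0 : ℝ) < N := by
    have : 0 < N := by omega
    exact_mod_cast this
  have h1 := hup N hN2 k
  set L := Real.log N with hL
  set ℓ := Real.log L with hℓd
  set q := √ L with hq
  have hL0 : 0 < L := by linarith
  have hqq : q * q = L := Real.mul_self_sqrt hL0.le
  have hq1 : 1 ≤ q := by rw [hq]; apply Real.le_sqrt_of_sq_le; linarith
  have hq34 : L ^ (3 / 4 : ℝ) = q * √ q := by
    rw [hq, Real.sqrt_eq_rpow, Real.sqrt_eq_rpow, ← Real.rpow_mul (by linarith), ← Real.rpow_add (by linarith)]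
    norm_num
  set h := ⌈(1 + B) * q⌉₊ with hh
  have hhlow : (1 + B) * q ≤ h := Nat.le_ceil _
  have hhup : (h : ℝ) ≤ (1 + B) * q + 1 := (Nat.ceil_lt_add_one (by positivity)).le
  have hh1 : 1 ≤ h := by
    have : (0 : ℝ) < h := lt_of_lt_of_le (by positivity) hhlow
    have : 0 < h := by exact_mod_cast this
    exact this
  have hh0 : (0 : ℝ) < h := by exact_mod_cast hh1
  have h2 := hmain N hN k E v 0 (2 / q) h hh1 hv (fun n => by
    rw [sub_zero]
    refine (win_partial hB h n).trans ?_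
    rw [div_le_div_iff₀ hh0 (by linarith)]
    nlinarith)
  simp only [sub_zero] at h2
  set S := √ (Real.log (2 + B)) with hS
  have hlog2 : Real.log 2 ≤ Real.log (2 + B) := Real.log_le_log (by norm_num) (by linarith)
  have hl2 := Real.log_two_gt_d9
  have hl2' := Real.log_two_lt_d9
  have hSS : S * S = Real.log (2 + B) := Real.mul_self_sqrt (by linarith)
  have hS8 : 0.8 ≤ S := by rw [hS]; apply Real.le_sqrt_of_sq_le; linarith
  -- the first term
  have h3 : 2 / q * #(Lv k N) ≤ 2 * A * 2 * (S * ℓ * (N / L ^ (3 / 4 : ℝ))) := by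
    have g1 : 2 / q * (#(Lv k N) : ℝ) ≤ 2 / q * (A * (N / q)) := mul_le_mul_of_nonneg_left h1 (by positivity)
    refine g1.trans ?_
    rw [hq34]
    have g2 : (1 : ℝ) / q ≤ 2 * (S * ℓ) * (1 / √ q) := by
      have g3 : √ q ≤ q := by
        rw [Real.sqrt_le_left (by linarith)]
        nlinarith
      have g4 : 0 < √ q := Real.sqrt_pos.2 (by linarith)
      have g5 : 1 / q ≤ 1 / √ q := one_div_le_one_div_of_le g4 g3
      have g6 : 1 ≤ 2 * (S * ℓ) := by nlinarith
      calc 1 / q ≤ 1 / √ q := g5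
        _ = 1 * (1 / √ q) := (one_mul _).symm
        _ ≤ _ := mul_le_mul_of_nonneg_right g6 (by positivity)
    calc 2 / q * (A * (N / q)) = 2 * A * (N / q) * (1 / q) := by ring
      _ ≤ 2 * A * (N / q) * (2 * (S * ℓ) * (1 / √ q)) := mul_le_mul_of_nonneg_left g2 (by positivity)
      _ = _ := by field_simp
  -- the second term
  have h4 : Er h N ≤ 4 * (S * ℓ * (N / L ^ (3 / 4 : ℝ))) := by
    unfold Er
    rw [← hL, ← hℓd]
    have g1 : Real.log h ≤ Real.log (2 + B) + ℓ / 2 + Real.log 2 := by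
      have g2 : (h : ℝ) ≤ (2 + B) * q * 2 := by nlinarith
      have g3 := Real.log_le_log hh0 g2
      rw [Real.log_mul (by positivity) (by norm_num), Real.log_mul (by positivity) (by positivity)] at g3
      have g4 : Real.log q = ℓ / 2 := by rw [hq, Real.log_sqrt (by linarith)]
      linarith
    have g5 : √ ((1 + Real.log h) * ℓ) ≤ 4 * (S * ℓ) := by
      rw [Real.sqrt_le_left (by positivity)]
      have g6 : (4 * (S * ℓ)) ^ 2 = 16 * Real.log (2 + B) * ℓ * ℓ := by
        rw [← hSS]; ring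
      rw [g6]
      apply mul_le_mul_of_nonneg_right _ (by linarith)
      nlinarith
    calc √ ((1 + Real.log h) * ℓ) * (N / L ^ (3 / 4 : ℝ)) ≤ 4 * (S * ℓ) * (N / L ^ (3 / 4 : ℝ)) :=
          mul_le_mul_of_nonneg_right g5 (by positivity)
      _ = _ := by ring
  have h5 : C * Er h N ≤ 4 * C * (S * ℓ * (N / L ^ (3 / 4 : ℝ))) := by
    have := mul_le_mul_of_nonneg_left h4 hC.le
    linarith
  calc ‖∑ n ∈ Lv k N, v n‖ ≤ _ := h2
    _ ≤ 2 * A * 2 * (S * ℓ * (N / L ^ (3 / 4 : ℝ))) + 4 * C * (S * ℓ * (N / L ^ (3 / 4 : ℝ))) := add_le_add h3 h5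
    _ = _ := by ring

/-! ### The mean ergodic theorem -/

theorem hilb {X : Type} [NormedAddCommGroup X] [InnerProductSpace ℝ X] [CompleteSpace X] (U : X →L[ℝ] X)
    (hU : ‖U‖ ≤ 1) (x : X) : ∃ y : X, U y = y ∧ (∀ z : X, U z = z → inner ℝ z (x - y) = 0) ∧
      (∀ n, ‖(U ^ n) x‖ ≤ ‖x‖) ∧
      ∀ ε : ℝ, 0 < ε → ∃ h : ℕ, 1 ≤ h ∧ ∀ n, ‖win (fun n => (U ^ n) x) h n - y‖ ≤ ε := by
  have hlim := U.tendsto_birkhoffAverage_orthogonalProjection hU x
  set S := (U.eqLocus (1 : X →L[ℝ] X)) with hS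
  set y : X := (S.orthogonalProjectionOnto x : X) with hy
  have hyS : y ∈ S := (S.orthogonalProjectionOnto x).2
  have hUy : U y = y := by
    have : U y = (1 : X →L[ℝ] X) y := hyS
    simpa using this
  have hstep : ∀ w : X, ‖U w‖ ≤ ‖w‖ := fun w =>
    (U.le_opNorm w).trans (by nlinarith [norm_nonneg w])
  have hpow : ∀ (n : ℕ) (w : X), ‖(U ^ n) w‖ ≤ ‖w‖ := by
    intro n
    induction n with
    | zero => intro w; simp
    | succ n ih =>
      intro w
      rw [pow_succ]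
      show ‖(U ^ n) (U w)‖ ≤ ‖w‖
      exact (ih _).trans (hstep w)
  have hfix : ∀ n : ℕ, (U ^ n) y = y := by
    intro n
    induction n with
    | zero => simp
    | succ n ih =>
      rw [pow_succ]
      show (U ^ n) (U y) = y
      rw [hUy, ih]
  have hiter : ∀ (j : ℕ) (w : X), _root_.id (U^[j] w) = (U ^ j) w := by
    intro j
    induction j with
    | zero => intro w; simp
    | succ j ih =>
      intro w
      rw [Function.iterate_succ_apply, ih, pow_succ]
      rfl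
  refine ⟨y, hUy, ?_, fun n => hpow n x, ?_⟩
  · intro z hz
    have hzS : z ∈ S := by
      show U z = (1 : X →L[ℝ] X) z
      simpa using hz
    have h1 := S.starProjection_inner_eq_zero x z hzS
    rw [real_inner_comm]
    rw [hy, S.coe_orthogonalProjectionOnto_apply]
    exact h1
  · intro ε hε
    obtain ⟨h, hh⟩ := (Metric.tendsto_atTop.1 hlim ε hε)
    refine ⟨h + 1, by omega, fun n => ?_⟩
    have h1 := hh (h + 1) (by omega)
    rw [dist_eq_norm] at h1
    have e1 : birkhoffAverage ℝ U _root_.id (h + 1) x = ((h + 1 : ℕ) : ℝ)⁻¹ • ∑ j ∈ range (h + 1), (U ^ j) x := by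
      unfold birkhoffAverage birkhoffSum
      congr 1
      apply Finset.sum_congr rfl
      intro j _
      exact hiter j x
    rw [e1] at h1
    have h3 : win (fun n => (U ^ n) x) (h + 1) n - y =
        (U ^ n) (((h + 1 : ℕ) : ℝ)⁻¹ • ∑ i ∈ range (h + 1), (U ^ i) x - y) := by
      rw [map_sub, map_smul, map_sum, hfix]
      unfold win
      congr 2
      apply Finset.sum_congr rfl
      intro i _
      show (U ^ (n + i)) x = (U ^ n) ((U ^ i) x)
      rw [pow_add]
      rfl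
    rw [h3]
    exact (hpow n _).trans h1.le

/-! ### Examples -/

/-- geometric sequences -/
theorem geo_partial {z : ℂ} (hz : ‖z‖ = 1) (h1 : z ≠ 1) (n : ℕ) : ‖∑ i ∈ range n, z ^ i‖ ≤ 2 / ‖z - 1‖ := by
  rw [geom_sum_eq h1, norm_div]
  apply div_le_div_of_nonneg_right _ (norm_nonneg _)
  refine (norm_sub_le _ _).trans ?_
  rw [norm_pow, hz]
  norm_num

/-- the sum of the digits -/
theorem digit_step {b : ℕ} (hb : 2 ≤ b) (m d : ℕ) (hd : d < b) :
    (Nat.digits b (b * m + d)).sum = d + (Nat.digits b m).sum := by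
  rcases Nat.eq_zero_or_pos (b * m + d) with h | h
  · have hd0 : d = 0 := by omega
    have hm0 : m = 0 := by
      have : b * m = 0 := by omega
      rcases Nat.mul_eq_zero.1 this with h1 | h1
      · omega
      · exact h1
    subst hd0; subst hm0
    simp
  · rw [Nat.digits_def' (by omega) h]
    rw [List.sum_cons]
    congr 1
    · rw [Nat.mul_add_mod, Nat.mod_eq_of_lt hd]
    · congr 2
      rw [Nat.mul_add_div (by omega), Nat.div_eq_of_lt hd, add_zero]

theorem digit_partial {b : ℕ} (hb : 2 ≤ b) {z : ℂ} (hz : z ^ b = 1) (h1 : z ≠ 1) (n : ℕ) :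
    ‖∑ i ∈ range n, z ^ (Nat.digits b i).sum‖ ≤ b := by
  have hb0 : 0 < b := by omega
  have hnorm : ‖z‖ = 1 := by
    have : ‖z‖ ^ b = 1 := by rw [← norm_pow, hz, norm_one]
    exact (pow_eq_one_iff_of_nonneg (norm_nonneg z) hb0.ne').1 this
  have hzero : ∑ d ∈ range b, z ^ d = 0 := by
    rw [geom_sum_eq h1, hz, sub_self, zero_div]
  have hfull : ∀ m : ℕ, ∑ i ∈ range (b * m), z ^ (Nat.digits b i).sum = 0 := by
    intro m
    induction m with
    | zero => simp
    | succ m ih =>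
      rw [mul_add, mul_one, Finset.sum_range_add, ih, zero_add]
      have : ∀ d ∈ range b, z ^ (Nat.digits b (b * m + d)).sum = z ^ d * z ^ (Nat.digits b m).sum := by
        intro d hd
        rw [digit_step hb m d (Finset.mem_range.1 hd), pow_add]
      rw [Finset.sum_congr rfl this, ← Finset.sum_mul, hzero, zero_mul]
  have e : n = b * (n / b) + n % b := (Nat.div_add_mod n b).symm
  rw [e, Finset.sum_range_add, hfull, zero_add]
  refine (norm_sum_le _ _).trans ?_
  have h2 : ∀ d ∈ range (n % b), ‖z ^ (Nat.digits b (b * (n / b) + d)).sum‖ ≤ 1 := by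
    intro d _
    rw [norm_pow, hnorm, one_pow]
  refine (Finset.sum_le_sum h2).trans ?_
  rw [Finset.sum_const, card_range, nsmul_eq_mul, mul_one]
  exact_mod_cast (Nat.mod_lt n hb0).le

end Pool.Agent.U339.LV
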